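import Pool.Agent.Y153.QTN3
import Pool.Agent.Y692.QN.Zi

/-! Project QT, task N3. -/

set_option autoImplicit false

namespace Pool.Agent.Y153.QN3

open Pool.Agent.Y19.QT

theorem N3 (a : ℤ) (ha : a ≠ 0) : HasTwists a 0 ∧ ∀ d : ℤ, Squarefree d →
    ∃ F : ℂ → ℂ, IsLFun (a * d ^ 2) (0 * d ^ 3) F :=
  Pool.Agent.Y692.QN.N3_of (fun A hA => quartic_data A hA) a ha

end Pool.Agent.Y153.QN3
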