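import Pool.Agent.Y366.QMQ3

/-!
Products of tuples of squarefree numbers are not often in a bad square class: version with a saving of
a power, uniform in the parameters.
-/

set_option autoImplicit false

namespace Pool.Agent.Y153.QMQ3b

open Pool.Agent.Y19.QT
open Pool.Agent.Y366.QMQ3
open Finset

/-- The sum over the products, the part of the function. -/
lemma sum_g (I : Finset ℤ) (Y : ℕ) (hI : ∀ P ∈ I, P ≠ 0 ∧ P.natAbs ≤ Y) (σ : ℤ → ℤ)
    (hσ : ∀ P ∈ I, Squarefree (σ P) ∧ ∃ k : ℤ, P = σ P * k ^ 2) (g : ℤ → ℝ)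
    (V δ : ℝ) (Ag : ℕ) (hV : 0 ≤ V) (hδ0 : 0 ≤ δ) (hδ1 : δ ≤ 1 / 2)
    (hg : ∀ X : ℕ, 3 ≤ X → ∑ s ∈ sqf X, g s ^ 2 ≤ V * (X : ℝ) ^ (1 - δ) * Real.log X ^ Ag) :
    ∑ P ∈ I, g (σ P) ^ 2 ≤
      3 * V * (Y : ℝ) ^ (1 - δ) * Real.log (3 * Y) ^ Ag * (1 + Real.log Y) := by
  have h1 : ∀ P ∈ I, ∃ k : ℕ, P = σ P * (k : ℤ) ^ 2 := by
    intro P hP
    obtain ⟨-, k, hk⟩ := hσ P hP
    exact ⟨k.natAbs, by rw [Int.natCast_natAbs, sq_abs, ← hk]⟩
  choose! κ hκ using h1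
  have hk0 : ∀ P ∈ I, κ P ≠ 0 := by
    intro P hP h0
    have h2 := hκ P hP
    rw [h0] at h2
    exact (hI P hP).1 (by rw [h2]; simp)
  have hs0 : ∀ P ∈ I, σ P ≠ 0 := fun P hP => (hσ P hP).1.ne_zero
  have habs : ∀ P ∈ I, (σ P).natAbs * κ P ^ 2 = P.natAbs := by
    intro P hP
    conv_rhs => rw [hκ P hP]
    rw [Int.natAbs_mul, Int.natAbs_pow, Int.natAbs_natCast]
  set J : Finset (Σ _ : ℕ, ℤ) := (Icc 1 (Nat.sqrt Y)).sigma fun k => sqf (Y / k ^ 2) with hJ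
  have hmem : ∀ P ∈ I, (⟨κ P, σ P⟩ : Σ _ : ℕ, ℤ) ∈ J := by
    intro P hP
    rw [hJ, mem_sigma, mem_Icc, mem_sqf]
    have h2 := habs P hP
    have h3 := (hI P hP).2
    have h4 : 1 ≤ κ P := Nat.one_le_iff_ne_zero.2 (hk0 P hP)
    have h5 : 1 ≤ (σ P).natAbs := Int.natAbs_pos.2 (hs0 P hP)
    refine ⟨⟨h4, ?_⟩, ?_, (hσ P hP).1⟩
    · rw [Nat.le_sqrt, ← sq]
      calc κ P ^ 2 = 1 * κ P ^ 2 := (one_mul _).symm
        _ ≤ (σ P).natAbs * κ P ^ 2 := Nat.mul_le_mul_right _ h5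
        _ ≤ Y := by rw [h2]; exact h3
    · have h6 : (σ P).natAbs ≤ Y / κ P ^ 2 := by
        rw [Nat.le_div_iff_mul_le (by positivity)]
        omega
      rw [Int.abs_eq_natAbs]
      exact_mod_cast h6
  have hinj : Set.InjOn (fun P : ℤ => (⟨κ P, σ P⟩ : Σ _ : ℕ, ℤ)) (I : Set ℤ) := by
    intro P hP P' hP' h
    have h2 : κ P = κ P' := congrArg Sigma.fst h
    have h3 : σ P = σ P' := by
      have h4 : (fun x : (Σ _ : ℕ, ℤ) => x.2) ⟨κ P, σ P⟩ =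
        (fun x : (Σ _ : ℕ, ℤ) => x.2) ⟨κ P', σ P'⟩ := congrArg _ h
      exact h4
    rw [hκ P hP, hκ P' hP', h2, h3]
  have h2 : ∑ P ∈ I, g (σ P) ^ 2 ≤ ∑ x ∈ J, g x.2 ^ 2 := by
    have h3 : ∑ P ∈ I, g (σ P) ^ 2 =
        ∑ x ∈ I.image (fun P : ℤ => (⟨κ P, σ P⟩ : Σ _ : ℕ, ℤ)), g x.2 ^ 2 := by
      rw [sum_image hinj]
    rw [h3]
    refine sum_le_sum_of_subset_of_nonneg ?_ fun x _ _ => sq_nonneg _
    intro x hx
    rw [mem_image] at hx
    obtain ⟨P, hP, rfl⟩ := hx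
    exact hmem P hP
  refine h2.trans ?_
  rw [hJ, sum_sigma]
  have h3 : ∀ k ∈ Icc 1 (Nat.sqrt Y), ∑ s ∈ sqf (Y / k ^ 2), g s ^ 2 ≤
      3 * V * (Y : ℝ) ^ (1 - δ) * Real.log (3 * Y) ^ Ag * (1 / (k : ℝ)) := by
    intro k hk
    rw [mem_Icc, Nat.le_sqrt, ← sq] at hk
    obtain ⟨hk1, hk2⟩ := hk
    set Z := Y / k ^ 2 with hZ
    have hZ1 : 1 ≤ Z := by
      rw [hZ, Nat.le_div_iff_mul_le (by positivity)]
      omega
    have hZY : Z ≤ Y := Nat.div_le_self _ _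
    have hsub : sqf Z ⊆ sqf (3 * Z) := by
      intro s hs
      rw [mem_sqf] at hs ⊢
      refine ⟨hs.1.trans ?_, hs.2⟩
      push_cast
      omega
    have h4 : ∑ s ∈ sqf Z, g s ^ 2 ≤ ∑ s ∈ sqf (3 * Z), g s ^ 2 :=
      sum_le_sum_of_subset_of_nonneg hsub fun x _ _ => sq_nonneg _
    have h5 := hg (3 * Z) (by omega)
    have hkr : (1 : ℝ) ≤ k := by exact_mod_cast hk1
    have hYr : (0 : ℝ) ≤ Y := Nat.cast_nonneg _
    have hZr : (1 : ℝ) ≤ Z := by exact_mod_cast hZ1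
    have hZY' : (Z : ℝ) ≤ Y := by exact_mod_cast hZY
    have h7 : (Z : ℝ) ≤ (Y : ℝ) / ((k ^ 2 : ℕ) : ℝ) := Nat.cast_div_le
    have h6 : (3 * Z : ℝ) ^ (1 - δ) ≤ 3 * (Y : ℝ) ^ (1 - δ) * (1 / (k : ℝ)) := by
      have e0 : 0 ≤ 1 - δ := by linarith
      have e1 : (3 * Z : ℝ) ^ (1 - δ) ≤ (3 * ((Y : ℝ) / ((k ^ 2 : ℕ) : ℝ))) ^ (1 - δ) :=
        Real.rpow_le_rpow (by positivity) (by linarith) e0
      refine e1.trans ?_
      rw [Real.mul_rpow (by norm_num) (by positivity), Real.div_rpow hYr (by positivity)]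
      have e2 : (3 : ℝ) ^ (1 - δ) ≤ 3 := by
        calc (3 : ℝ) ^ (1 - δ) ≤ 3 ^ (1 : ℝ) :=
              Real.rpow_le_rpow_of_exponent_le (by norm_num) (by linarith)
          _ = 3 := Real.rpow_one _
      have e3 : (k : ℝ) ≤ ((k ^ 2 : ℕ) : ℝ) ^ (1 - δ) := by
        calc (k : ℝ) = ((k ^ 2 : ℕ) : ℝ) ^ ((1 : ℝ) / 2) := by
              rw [← Real.sqrt_eq_rpow]
              push_cast
              rw [Real.sqrt_sq (by linarith)]
          _ ≤ _ := by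
              apply Real.rpow_le_rpow_of_exponent_le
              · push_cast
                nlinarith
              · linarith
      have e4 : (Y : ℝ) ^ (1 - δ) / ((k ^ 2 : ℕ) : ℝ) ^ (1 - δ) ≤ (Y : ℝ) ^ (1 - δ) * (1 / (k : ℝ)) := by
        rw [div_eq_mul_one_div]
        apply mul_le_mul_of_nonneg_left _ (Real.rpow_nonneg hYr _)
        exact one_div_le_one_div_of_le (by linarith) e3
      calc (3 : ℝ) ^ (1 - δ) * ((Y : ℝ) ^ (1 - δ) / ((k ^ 2 : ℕ) : ℝ) ^ (1 - δ)) ≤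
            3 * ((Y : ℝ) ^ (1 - δ) * (1 / (k : ℝ))) := by
              apply mul_le_mul e2 e4 _ (by norm_num)
              positivity
        _ = _ := by ring
    have h7 : Real.log ((3 * Z : ℕ) : ℝ) ^ Ag ≤ Real.log (3 * Y) ^ Ag := by
      apply pow_le_pow_left₀ (Real.log_natCast_nonneg _)
      apply Real.log_le_log
      · push_cast
        linarith
      · push_cast
        linarith
    have h8 : 0 ≤ Real.log (3 * Y) ^ Ag := (pow_nonneg (Real.log_natCast_nonneg _) _).trans h7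
    calc ∑ s ∈ sqf Z, g s ^ 2 ≤
          V * ((3 * Z : ℕ) : ℝ) ^ (1 - δ) * Real.log ((3 * Z : ℕ) : ℝ) ^ Ag := h4.trans h5
      _ ≤ V * ((3 * Z : ℕ) : ℝ) ^ (1 - δ) * Real.log (3 * Y) ^ Ag :=
          mul_le_mul_of_nonneg_left h7 (by positivity)
      _ = V * Real.log (3 * Y) ^ Ag * (3 * Z : ℝ) ^ (1 - δ) := by push_cast; ring
      _ ≤ V * Real.log (3 * Y) ^ Ag * (3 * (Y : ℝ) ^ (1 - δ) * (1 / (k : ℝ))) :=
          mul_le_mul_of_nonneg_left h6 (by positivity)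
      _ = _ := by ring
  refine (sum_le_sum h3).trans ?_
  rw [← mul_sum]
  rcases Nat.eq_zero_or_pos Y with hY | hY
  · rw [hY]
    have : Icc 1 (Nat.sqrt 0) = ∅ := by simp
    rw [this, sum_empty, mul_zero]
    simp only [Nat.cast_zero, mul_zero, Real.log_zero]
    positivity
  have hY1 : (1 : ℝ) ≤ Y := by exact_mod_cast hY
  have h4 : 0 ≤ Real.log (3 * Y) ^ Ag := pow_nonneg (Real.log_nonneg (by linarith)) _
  apply mul_le_mul_of_nonneg_left _ (by positivity)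
  refine le_trans ?_ (Pool.Agent.TH935.DSB.harm Y)
  apply sum_le_sum_of_subset_of_nonneg
  · exact Icc_subset_Icc_right (Nat.sqrt_le_self Y)
  · intro x _ _
    positivity

theorem MQ3b (m : ℤ) (hm : m ≠ 0) (n : ℕ) (T : Finset (Fin n)) (hT : T.Nonempty) (Ag : ℕ) :
    ∃ (C : ℝ) (A : ℕ), ∀ (V δ : ℝ), 0 ≤ V → 0 ≤ δ → δ ≤ 1 / 2 → ∀ (g : ℤ → ℝ), (∀ s, 0 ≤ g s) →
      (∀ X : ℕ, 3 ≤ X → ∑ s ∈ sqf X, g s ^ 2 ≤ V * (X : ℝ) ^ (1 - δ) * Real.log X ^ Ag) →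
      ∀ (sf : (Fin n → ℤ) → ℤ), (∀ d, (∀ i, d i ≠ 0) → Squarefree (sf d) ∧
        ∃ k : ℤ, m * ∏ i ∈ T, d i = sf d * k ^ 2) →
      ∀ X : ℕ, 3 ≤ X → ∑ d ∈ Fintype.piFinset (fun _ : Fin n => sqf X), g (sf d) ≤
        C * Real.sqrt V * (X : ℝ) ^ (n - δ / 2) * Real.log X ^ A := by
  classical
  set t := T.card with ht
  have ht1 : 1 ≤ t := hT.card_pos
  have htn : t ≤ n := by
    have := card_le_univ T
    rwa [Fintype.card_fin] at this
  set B : ℝ := 2 + Real.log m.natAbs + t with hB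
  have hm1 : 1 ≤ m.natAbs := Int.natAbs_pos.2 hm
  have hmr : (1 : ℝ) ≤ (m.natAbs : ℝ) := by exact_mod_cast hm1
  have hlm : 0 ≤ Real.log m.natAbs := Real.log_natCast_nonneg _
  have hB1 : 1 ≤ B := by
    rw [hB]
    have : (0 : ℝ) ≤ t := Nat.cast_nonneg _
    linarith
  set K : ℕ := 2 ^ (2 * t) + (Ag + 1) with hK
  refine ⟨3 ^ n * 2 ^ t * 3 * m.natAbs * B ^ K, K, ?_⟩
  intro V δ hV hδ0 hδ1 g hg0 hg sf hsf X hX
  have hX1 : 1 ≤ X := by omega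
  have hXr : (3 : ℝ) ≤ X := by exact_mod_cast hX
  have hlog3 : 1 ≤ Real.log 3 := by
    rw [Real.le_log_iff_exp_le (by norm_num)]
    exact Real.exp_one_lt_three.le
  have hlX : Real.log 3 ≤ Real.log X := Real.log_le_log (by norm_num) hXr
  have hlX1 : 1 ≤ Real.log X := hlog3.trans hlX
  set Y : ℕ := m.natAbs * X ^ t with hY
  have hY1 : 1 ≤ Y := Nat.mul_pos hm1 (by positivity)
  have hYr : (1 : ℝ) ≤ Y := by exact_mod_cast hY1
  set D := Fintype.piFinset (fun _ : Fin n => sqf X) with hD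
  set f : (Fin n → ℤ) → ℤ := fun d => m * ∏ i ∈ T, d i with hf
  set I := D.image f with hI
  have hdn : ∀ d ∈ D, ∀ i, d i ≠ 0 := by
    intro d hd i
    rw [hD, Fintype.mem_piFinset] at hd
    exact (mem_sqf.1 (hd i)).2.ne_zero
  have hdX : ∀ d ∈ D, ∀ i, (d i).natAbs ≤ X := by
    intro d hd i
    rw [hD, Fintype.mem_piFinset] at hd
    have h1 := (mem_sqf.1 (hd i)).1
    rw [Int.abs_eq_natAbs] at h1
    exact_mod_cast h1
  have hfd0 : ∀ d ∈ D, f d ≠ 0 := fun d hd => mul_ne_zero hm (prod_ne_zero_iff.2 fun i _ => hdn d hd i)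
  have hIY : ∀ P ∈ I, P ≠ 0 ∧ P.natAbs ≤ Y := by
    intro P hP
    rw [hI, mem_image] at hP
    obtain ⟨d, hd, rfl⟩ := hP
    refine ⟨hfd0 d hd, ?_⟩
    rw [hf, hY]
    show (m * ∏ i ∈ T, d i).natAbs ≤ _
    rw [Int.natAbs_mul]
    apply Nat.mul_le_mul_left
    have h1 : (∏ i ∈ T, d i).natAbs = ∏ i ∈ T, (d i).natAbs := map_prod Int.natAbsHom d T
    rw [h1, ht]
    exact prod_le_pow_card _ _ _ fun i _ => hdX d hd i
  have hch : ∀ P ∈ I, ∃ d ∈ D, f d = P := fun P hP => mem_image.1 hP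
  choose! dP hdP hfP using hch
  set σ : ℤ → ℤ := fun P => sf (dP P) with hσ
  have hσI : ∀ P ∈ I, Squarefree (σ P) ∧ ∃ k : ℤ, P = σ P * k ^ 2 := by
    intro P hP
    obtain ⟨h1, k, h2⟩ := hsf (dP P) (hdn _ (hdP P hP))
    refine ⟨h1, k, ?_⟩
    rw [← h2]
    exact (hfP P hP).symm
  have huniq : ∀ P ∈ I, ∀ d ∈ D, f d = P → sf d = σ P := by
    intro P hP d hd hdf
    obtain ⟨h1, k, h2⟩ := hsf d (hdn _ hd)
    obtain ⟨h3, k', h4⟩ := hσI P hP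
    have h5 : sf d * k ^ 2 = P := by rw [← h2]; exact hdf
    refine sf_unique h1 h3 (by rw [h5]; exact h4) ?_
    rw [h5]
    exact (hIY P hP).1
  have hS : ∑ d ∈ D, g (sf d) = ∑ P ∈ I, ((D.filter fun d => f d = P).card : ℝ) * g (σ P) := by
    rw [← sum_fiberwise_of_maps_to (t := I) (g := f) fun d hd => mem_image_of_mem _ hd]
    refine sum_congr rfl fun P hP => ?_
    have h1 : ∀ d ∈ D.filter (fun d => f d = P), g (sf d) = g (σ P) := by
      intro d hd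
      rw [mem_filter] at hd
      rw [huniq P hP d hd.1 hd.2]
    rw [sum_congr rfl h1, sum_const, nsmul_eq_mul]
  have h1 : ∀ P ∈ I, ((D.filter fun d => f d = P).card : ℝ) * g (σ P) ≤
      (3 * X) ^ (n - t) * 2 ^ t * ((P.natAbs.divisors.card : ℝ) ^ t * g (σ P)) := by
    intro P hP
    have h2 := card_fiber m n T X hX1 P (hIY P hP).1
    have h3 : ((D.filter fun d => f d = P).card : ℝ) * g (σ P) ≤
      ((3 * X) ^ (n - t) * (2 * (P.natAbs.divisors.card : ℝ)) ^ t) * g (σ P) :=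
      mul_le_mul_of_nonneg_right h2 (hg0 _)
    refine h3.trans (le_of_eq ?_)
    rw [mul_pow]
    ring
  have h2 : ∑ d ∈ D, g (sf d) ≤ (3 * X) ^ (n - t) * 2 ^ t *
      ∑ P ∈ I, (P.natAbs.divisors.card : ℝ) ^ t * g (σ P) := by
    rw [hS]
    refine (sum_le_sum h1).trans (le_of_eq ?_)
    rw [← mul_sum]
  have hCS : ∑ P ∈ I, (P.natAbs.divisors.card : ℝ) ^ t * g (σ P) ≤
      Real.sqrt ((∑ P ∈ I, (P.natAbs.divisors.card : ℝ) ^ (2 * t)) * ∑ P ∈ I, g (σ P) ^ 2) := by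
    apply Real.le_sqrt_of_sq_le
    have := sum_mul_sq_le_sq_mul_sq I (fun P : ℤ => (P.natAbs.divisors.card : ℝ) ^ t)
      (fun P => g (σ P))
    refine this.trans (le_of_eq ?_)
    congr 1
    refine sum_congr rfl fun P _ => ?_
    rw [← pow_mul, mul_comm t 2]
  have h3 := sum_tau I Y (2 * t) hIY
  have h4 := sum_g I Y hIY σ hσI g V δ Ag hV hδ0 hδ1 hg
  -- logarithms
  have hl3Y : Real.log (3 * Y) ≤ B * Real.log X := by
    have h5 : Real.log (3 * (Y : ℝ)) = Real.log 3 + (Real.log m.natAbs + t * Real.log X) := by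
      rw [hY]
      push_cast
      rw [Real.log_mul (by norm_num) (by positivity), Real.log_mul (by positivity) (by positivity),
        Real.log_pow]
    rw [h5, hB]
    nlinarith
  have hlY : 1 + Real.log Y ≤ B * Real.log X := by
    refine le_trans ?_ hl3Y
    rw [Real.log_mul (by norm_num) (by positivity)]
    linarith
  have hlY0 : 0 ≤ 1 + Real.log Y := by
    have := Real.log_natCast_nonneg Y
    linarith
  have hl3Y0 : 0 ≤ Real.log (3 * Y) := Real.log_nonneg (by linarith)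
  have hBX : 1 ≤ B * Real.log X := by nlinarith
  set L := B * Real.log X with hL
  have e1 : (1 + Real.log Y) ^ (2 ^ (2 * t)) ≤ L ^ (2 ^ (2 * t)) := pow_le_pow_left₀ hlY0 hlY _
  have e2 : Real.log (3 * Y) ^ Ag * (1 + Real.log Y) ≤ L ^ (Ag + 1) := by
    rw [pow_succ]
    apply mul_le_mul (pow_le_pow_left₀ hl3Y0 hl3Y _) hlY hlY0 (by positivity)
  have hYp : 0 ≤ (Y : ℝ) ^ (1 - δ) := by positivity
  have h5 : (∑ P ∈ I, (P.natAbs.divisors.card : ℝ) ^ (2 * t)) * ∑ P ∈ I, g (σ P) ^ 2 ≤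
      (3 * Real.sqrt V * (Y : ℝ) ^ (1 - δ / 2) * L ^ K) ^ 2 := by
    have f1 : ∑ P ∈ I, (P.natAbs.divisors.card : ℝ) ^ (2 * t) ≤ 2 * (Y * L ^ (2 ^ (2 * t))) := by
      refine h3.trans ?_
      apply mul_le_mul_of_nonneg_left _ (by norm_num)
      exact mul_le_mul_of_nonneg_left e1 (by positivity)
    have f2 : ∑ P ∈ I, g (σ P) ^ 2 ≤ 3 * V * (Y : ℝ) ^ (1 - δ) * L ^ (Ag + 1) := by
      refine h4.trans ?_
      rw [mul_assoc (3 * V * (Y : ℝ) ^ (1 - δ))]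
      exact mul_le_mul_of_nonneg_left e2 (by positivity)
    have f3 : (Y : ℝ) * (Y : ℝ) ^ (1 - δ) = ((Y : ℝ) ^ (1 - δ / 2)) ^ 2 := by
      rw [← Real.rpow_natCast, ← Real.rpow_mul (by linarith)]
      nth_rewrite 1 [← Real.rpow_one (Y : ℝ)]
      rw [← Real.rpow_add (by linarith)]
      congr 1
      push_cast
      ring
    have f4 : 0 ≤ ∑ P ∈ I, g (σ P) ^ 2 := sum_nonneg fun P _ => sq_nonneg _
    have f5 : L ^ K ≤ L ^ (2 * K) := pow_le_pow_right₀ hBX (by omega)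
    have f6 : Real.sqrt V ^ 2 = V := Real.sq_sqrt hV
    calc (∑ P ∈ I, (P.natAbs.divisors.card : ℝ) ^ (2 * t)) * ∑ P ∈ I, g (σ P) ^ 2 ≤
          (2 * (Y * L ^ (2 ^ (2 * t)))) * (3 * V * (Y : ℝ) ^ (1 - δ) * L ^ (Ag + 1)) :=
            mul_le_mul f1 f2 f4 (by positivity)
      _ = 6 * V * ((Y : ℝ) * (Y : ℝ) ^ (1 - δ)) * L ^ K := by
            rw [hK, pow_add L (2 ^ (2 * t)) (Ag + 1)]
            ring
      _ ≤ 9 * V * ((Y : ℝ) * (Y : ℝ) ^ (1 - δ)) * L ^ (2 * K) := by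
            apply mul_le_mul _ f5 (by positivity) (by positivity)
            apply mul_le_mul_of_nonneg_right _ (by positivity)
            nlinarith
      _ = _ := by
            rw [f3]
            nth_rewrite 1 [← f6]
            rw [two_mul, pow_add]
            ring
  have h6 : ∑ P ∈ I, (P.natAbs.divisors.card : ℝ) ^ t * g (σ P) ≤
      3 * Real.sqrt V * (Y : ℝ) ^ (1 - δ / 2) * L ^ K := by
    refine hCS.trans ?_
    rw [← Real.sqrt_sq (show 0 ≤ 3 * Real.sqrt V * (Y : ℝ) ^ (1 - δ / 2) * L ^ K by positivity)]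
    exact Real.sqrt_le_sqrt h5
  have h7 : (Y : ℝ) ^ (1 - δ / 2) ≤ m.natAbs * (X : ℝ) ^ ((t : ℝ) - δ / 2) := by
    have g1 : (Y : ℝ) = m.natAbs * (X : ℝ) ^ (t : ℝ) := by
      rw [hY]
      push_cast
      rw [Real.rpow_natCast]
    rw [g1, Real.mul_rpow (by positivity) (by positivity), ← Real.rpow_mul (by positivity)]
    apply mul_le_mul
    · calc (m.natAbs : ℝ) ^ (1 - δ / 2) ≤ (m.natAbs : ℝ) ^ (1 : ℝ) :=
            Real.rpow_le_rpow_of_exponent_le hmr (by linarith)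
        _ = _ := Real.rpow_one _
    · apply Real.rpow_le_rpow_of_exponent_le (by linarith)
      have : (1 : ℝ) ≤ t := by exact_mod_cast ht1
      nlinarith
    · positivity
    · positivity
  have h8 : (3 * (X : ℝ)) ^ (n - t) * (X : ℝ) ^ ((t : ℝ) - δ / 2) ≤
      3 ^ n * (X : ℝ) ^ ((n : ℝ) - δ / 2) := by
    rw [mul_pow]
    have g1 : (X : ℝ) ^ (n - t) * (X : ℝ) ^ ((t : ℝ) - δ / 2) = (X : ℝ) ^ ((n : ℝ) - δ / 2) := by
      rw [← Real.rpow_natCast, ← Real.rpow_add (by linarith)]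
      congr 1
      rw [Nat.cast_sub htn]
      ring
    have g2 : (3 : ℝ) ^ (n - t) ≤ 3 ^ n := pow_le_pow_right₀ (by norm_num) (by omega)
    rw [mul_assoc, g1]
    exact mul_le_mul_of_nonneg_right g2 (by positivity)
  have hLK : L ^ K = B ^ K * Real.log X ^ K := by rw [hL, mul_pow]
  calc ∑ d ∈ D, g (sf d) ≤ _ := h2
    _ ≤ (3 * X) ^ (n - t) * 2 ^ t * (3 * Real.sqrt V * (Y : ℝ) ^ (1 - δ / 2) * L ^ K) :=
      mul_le_mul_of_nonneg_left h6 (by positivity)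
    _ = ((3 * X) ^ (n - t) * (Y : ℝ) ^ (1 - δ / 2)) * (2 ^ t * 3 * Real.sqrt V * L ^ K) := by ring
    _ ≤ ((3 * X) ^ (n - t) * (m.natAbs * (X : ℝ) ^ ((t : ℝ) - δ / 2))) *
          (2 ^ t * 3 * Real.sqrt V * L ^ K) := by
      apply mul_le_mul_of_nonneg_right _ (by positivity)
      exact mul_le_mul_of_nonneg_left h7 (by positivity)
    _ = ((3 * X) ^ (n - t) * (X : ℝ) ^ ((t : ℝ) - δ / 2)) *
          (2 ^ t * 3 * Real.sqrt V * L ^ K * m.natAbs) := by ring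
    _ ≤ (3 ^ n * (X : ℝ) ^ ((n : ℝ) - δ / 2)) * (2 ^ t * 3 * Real.sqrt V * L ^ K * m.natAbs) :=
      mul_le_mul_of_nonneg_right h8 (by positivity)
    _ = _ := by
      rw [hLK]
      ring

end Pool.Agent.Y153.QMQ3b
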