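import Pool.Agent.Y153.QT.LF
import Pool.Agent.Y153.QT.Even
import Pool.Agent.H304R2.EC.Points
import Pool.Agent.H304R2.EC.Coef
import Pool.Agent.Y496.QT10a

set_option autoImplicit false

/-!
Project QT, N1: the quadratic twists of the congruent number curve `y² = x³ - x`.
-/

namespace Pool.Agent.Y153.QTN1

open Complex Filter Topology
open Pool.Agent.Y19.QT
open Pool.Agent.H306R2.RZ (js)
open Pool.Agent.Y153.QT
open Pool.Agent.H491R3.J (jchi)
open Pool.Agent.H304R2.EC (an PS TH)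
open Pool.Agent.Y705.QT (js_mul js_one js_abs_le)
open Pool.Agent.Y691.QT (js_pow_right js_mul_left js_one_left)

/-! ### the sign of the functional equation -/

section sign

variable {c : ℕ → ℝ} {C q : ℝ} {m : ℕ}

theorem summ_z (hc : ∀ n : ℕ, |c n| ≤ C * (n : ℝ) ^ m) (hq : 0 < q) {z : ℂ} (hz : 0 < z.re) :
    Summable (fun n : ℕ => (c n : ℂ) * cexp (-(2 * Real.pi * n * z / (q : ℝ)))) := by
  refine Summable.of_norm ?_
  have hr : 0 < 2 * Real.pi * z.re / q := by positivity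
  refine (summ_bd hc hr).congr fun n => ?_
  rw [norm_term]

theorem exists_ne (hc : ∀ n : ℕ, |c n| ≤ C * (n : ℝ) ^ m) (hc0 : c 0 = 0) (hc1 : c 1 = 1)
    (hq : 0 < q) :
    ∃ t : ℝ, 0 < t ∧ ∑' n : ℕ, (c n : ℂ) * cexp (-(2 * Real.pi * n * (t : ℂ) / (q : ℝ))) ≠ 0 := by
  by_contra hcon
  push Not at hcon
  set r : ℝ := 2 * Real.pi / q with hr
  have hr0 : 0 < r := by positivity
  have hS := summ_bd hc hr0
  set S : ℝ := ∑' n : ℕ, |c n| * Real.exp (-r * n) with hSdef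
  have hS0 : 0 ≤ S := tsum_nonneg fun n => by positivity
  -- the bound
  have key : ∀ t : ℝ, 1 ≤ t → Real.exp (-r * t) ≤ S * Real.exp (-2 * r * (t - 1)) := by
    intro t ht
    have ht0 : 0 < t := by linarith
    have h1 := (summ_z hc hq (z := (t : ℂ)) (by simpa using ht0)).hasSum
    rw [hcon t ht0] at h1
    have h2 := h1.update 1 0
    have hn : ∀ n : ℕ, ‖(c n : ℂ) * cexp (-(2 * Real.pi * n * (t : ℂ) / (q : ℝ)))‖ =
        |c n| * Real.exp (-r * t * n) := by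
      intro n
      rw [norm_term, Complex.ofReal_re]
      congr 2
      rw [hr]
      ring
    have h3 : ‖(0 : ℂ) - (c 1 : ℂ) * cexp (-(2 * Real.pi * (1 : ℕ) * (t : ℂ) / (q : ℝ))) + 0‖ ≤
        S * Real.exp (-2 * r * (t - 1)) := by
      refine h2.norm_le_of_bounded (hS.hasSum.mul_right _) fun n => ?_
      by_cases hn1 : n = 1
      · subst hn1
        rw [Function.update_self, norm_zero]
        positivity
      · rw [Function.update_of_ne hn1, hn]
        rcases Nat.eq_zero_or_pos n with rfl | hnpos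
        · rw [hc0, abs_zero, zero_mul, zero_mul, zero_mul]
        · have hn2 : (2 : ℝ) ≤ n := by
            have : 2 ≤ n := by omega
            exact_mod_cast this
          rw [mul_assoc (|c n|) (Real.exp (-r * n)), ← Real.exp_add]
          refine mul_le_mul_of_nonneg_left (Real.exp_le_exp.2 ?_) (abs_nonneg _)
          nlinarith [mul_nonneg hr0.le (mul_nonneg (by linarith : (0 : ℝ) ≤ n - 2)
            (by linarith : (0 : ℝ) ≤ t - 1))]
    have h4 : ‖(0 : ℂ) - (c 1 : ℂ) * cexp (-(2 * Real.pi * (1 : ℕ) * (t : ℂ) / (q : ℝ))) + 0‖ =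
        Real.exp (-r * t) := by
      rw [add_zero, zero_sub, norm_neg, hn 1, hc1]
      simp
    rw [h4] at h3
    exact h3
  set t : ℝ := S * Real.exp (2 * r) / r + 1 with ht
  have ht1 : 1 ≤ t := by
    have : 0 ≤ S * Real.exp (2 * r) / r := by positivity
    linarith
  have h5 := key t ht1
  have h6 : Real.exp (r * t) ≤ S * Real.exp (2 * r) := by
    have e1 : Real.exp (r * t) = Real.exp (-r * t) * Real.exp (2 * r * t) := by
      rw [← Real.exp_add]; ring_nf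
    have e2 : S * Real.exp (2 * r) = S * Real.exp (-2 * r * (t - 1)) * Real.exp (2 * r * t) := by
      rw [mul_assoc, ← Real.exp_add]; ring_nf
    rw [e1, e2]
    exact mul_le_mul_of_nonneg_right h5 (Real.exp_pos _).le
  have h7 : r * t + 1 ≤ Real.exp (r * t) := Real.add_one_le_exp _
  have h8 : r * t = S * Real.exp (2 * r) + r := by
    rw [ht]
    field_simp
  linarith

theorem w_sq (hc : ∀ n : ℕ, |c n| ≤ C * (n : ℝ) ^ m) (hc0 : c 0 = 0) (hc1 : c 1 = 1)
    (hq : 0 < q) (w : ℂ)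
    (hfe : ∀ t : ℝ, 0 < t → ∑' n : ℕ, (c n : ℂ) * cexp (-(2 * Real.pi * n * (1 / (t : ℂ)) / (q : ℝ))) =
      w * (t : ℂ) ^ 2 * ∑' n : ℕ, (c n : ℂ) * cexp (-(2 * Real.pi * n * (t : ℂ) / (q : ℝ)))) :
    ∃ w' : ℝ, w' ^ 2 = 1 ∧ (w' : ℂ) = w := by
  obtain ⟨t, ht, hT⟩ := exists_ne hc hc0 hc1 hq
  have h1 := hfe t ht
  have h2 := hfe (1 / t) (by positivity)
  have htc : (t : ℂ) ≠ 0 := by exact_mod_cast ht.ne'
  have e1 : (((1 / t : ℝ)) : ℂ) = 1 / (t : ℂ) := by push_cast; rfl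
  rw [e1, one_div_one_div, h1] at h2
  generalize ∑' n : ℕ, (c n : ℂ) * cexp (-(2 * Real.pi * n * (t : ℂ) / (q : ℝ))) = T at h2 hT
  have h3 : w * w = 1 := by
    apply mul_right_cancel₀ hT
    rw [one_mul]
    nth_rewrite 2 [h2]
    field_simp
  rcases mul_self_eq_one_iff.1 h3 with h | h
  · exact ⟨1, by norm_num, by rw [h]; simp⟩
  · exact ⟨-1, by norm_num, by rw [h]; simp⟩

end sign

/-! ### the coefficients -/

/-- the coefficients of the twist by `d` -/
noncomputable def cE (d : ℤ) (n : ℕ) : ℝ := (an n : ℝ) * js d n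

/-- the good primes -/
noncomputable def eE (d : ℤ) (p : ℕ) : ℝ := if p = 2 then 0 else js d p ^ 2

theorem js_cases (d : ℤ) (n : ℕ) : js d n = 0 ∨ js d n = 1 ∨ js d n = -1 := by
  unfold js
  rcases jacobiSym.trichotomy d n with h | h | h <;> rw [h] <;> simp

theorem an_mod4 {n : ℕ} (h : n % 4 ≠ 1) : an n = 0 := by
  unfold Pool.Agent.H304R2.EC.an
  refine Finset.sum_eq_zero fun p hp => ?_
  exfalso
  obtain ⟨a, b⟩ := p
  obtain ⟨h1, h2, h3⟩ := (Pool.Agent.H304R2.EC.s4_mem_PS _ _).1 hp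
  simp only at h1 h2 h3
  obtain ⟨k, hk⟩ : ∃ k, a = 2 * k + 1 := ⟨a / 2, by omega⟩
  obtain ⟨l, hl⟩ : ∃ l, b = 2 * l := ⟨b / 2, by omega⟩
  have h4 : (n : ℤ) = 4 * (k ^ 2 + k + l ^ 2) + 1 := by
    rw [← h3, hk, hl]; ring
  omega

theorem an_le (n : ℕ) : |(an n : ℝ)| ≤ 9 * (n : ℝ) ^ 3 := by
  rcases Nat.eq_zero_or_pos n with rfl | hn
  · rw [Pool.Agent.H304R2.EC.an_zero]; simp
  · have h1 := Pool.Agent.H304R2.EC.an_crude n
    have hn1 : (1 : ℝ) ≤ n := by exact_mod_cast hn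
    refine h1.trans ?_
    have h2 : (2 * (n : ℝ) + 1) ^ 2 ≤ 9 * (n : ℝ) ^ 2 := by nlinarith
    calc (2 * (n : ℝ) + 1) ^ 2 * n ≤ 9 * (n : ℝ) ^ 2 * n :=
          mul_le_mul_of_nonneg_right h2 (by positivity)
      _ = _ := by ring

theorem cE_le (d : ℤ) (n : ℕ) : |cE d n| ≤ 9 * (n : ℝ) ^ 3 := by
  unfold cE
  rw [abs_mul]
  calc |(an n : ℝ)| * |js d n| ≤ 9 * (n : ℝ) ^ 3 * 1 :=
        mul_le_mul (an_le n) (js_abs_le d n) (abs_nonneg _) (by positivity)
    _ = _ := mul_one _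

theorem wt (d : ℤ) : WT (eE d) (cE d) := by
  refine ⟨?_, ?_, ?_, ?_, ?_, ?_, ?_⟩
  · unfold cE
    rw [Pool.Agent.H304R2.EC.an_zero]; simp
  · unfold cE
    rw [Pool.Agent.H304R2.EC.an_one, js_one]; simp
  · intro m n hmn
    unfold cE
    rw [Pool.Agent.H304R2.EC.an_mul m n hmn]
    by_cases hm : m = 0
    · subst hm
      rw [Pool.Agent.H304R2.EC.an_zero]; simp
    by_cases hn : n = 0
    · subst hn
      rw [Pool.Agent.H304R2.EC.an_zero]; simp
    rw [js_mul d hm hn]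
    push_cast
    ring
  · intro p _
    unfold eE
    split_ifs
    · left; rfl
    · rcases js_cases d p with h | h | h <;> rw [h] <;> norm_num
  · intro p k hp
    unfold cE eE
    by_cases h2 : p = 2
    · subst h2
      rw [Pool.Agent.H304R2.EC.an_even (2 ^ (k + 2)) (dvd_pow_self 2 (by omega)),
        Pool.Agent.H304R2.EC.an_even 2 (dvd_refl 2)]
      simp
    · rw [if_neg h2, Pool.Agent.H304R2.EC.an_pow p hp h2 k, js_pow_right, js_pow_right,
        js_pow_right]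
      push_cast
      ring
  · intro p hp _
    unfold cE
    have h1 := Pool.Agent.H304R2.EC.an_sq_le p hp
    have h2 : |(an p : ℝ)| ≤ 2 * Real.sqrt p := by
      have h3 : ((an p : ℝ)) ^ 2 ≤ 4 * p := by exact_mod_cast h1
      have h4 : Real.sqrt (4 * p) = 2 * Real.sqrt p := by
        rw [Real.sqrt_mul (by norm_num)]
        congr 1
        rw [show (4 : ℝ) = 2 ^ 2 by norm_num]
        exact Real.sqrt_sq (by norm_num)
      rw [← h4]
      exact Real.abs_le_sqrt h3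
    rw [abs_mul]
    calc |(an p : ℝ)| * |js d p| ≤ 2 * Real.sqrt p * 1 :=
          mul_le_mul h2 (js_abs_le d p) (abs_nonneg _) (by positivity)
      _ = _ := mul_one _
  · intro p hp he
    unfold eE at he
    unfold cE
    by_cases h2 : p = 2
    · subst h2
      rw [Pool.Agent.H304R2.EC.an_even 2 (dvd_refl 2)]
      simp
    · rw [if_neg h2] at he
      have h3 : js d p = 0 := by simpa using he
      rw [h3]
      simp

/-! ### functional equations -/

/-- reciprocity, `n ≡ 1 mod 4` -/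
theorem js_natAbs (d : ℤ) {n : ℕ} (hn : n % 4 = 1) : js d n = js (d.natAbs : ℤ) n := by
  have hodd : Odd n := Nat.odd_iff.2 (by omega)
  rcases Int.natAbs_eq d with h | h
  · rw [← h]
  · have h1 : js (-1) n = 1 := by
      unfold js
      rw [jacobiSym.at_neg_one hodd, ZMod.χ₄_nat_one_mod_four hn]
      simp
    conv_lhs => rw [h]
    rw [← neg_one_mul, js_mul_left, h1, one_mul]

theorem js_recip {m n : ℕ} (hm : Odd m) (hn : n % 4 = 1) : js (m : ℤ) n = js (n : ℤ) m := by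
  unfold js
  rw [jacobiSym.quadratic_reciprocity_one_mod_four hn hm]

theorem js_two {n : ℕ} (hn : Odd n) : js 2 n = ((ZMod.χ₈ (n : ZMod 8) : ℤ) : ℝ) := by
  unfold js
  rw [jacobiSym.at_two hn]

/-- `√conductor` -/
noncomputable def qE (d : ℤ) : ℝ :=
  if d % 2 = 0 then 4 * |(d : ℝ)| else 2 * Real.sqrt 8 * |(d : ℝ)|

theorem fe_odd (d : ℤ) (hd : Squarefree d) (h2 : ¬ d % 2 = 0) :
    ∃ w : ℂ, ‖w‖ = 1 ∧ ∀ t : ℝ, 0 < t →
      ∑' n : ℕ, (cE d n : ℂ) * cexp (-(2 * Real.pi * n * (1 / (t : ℂ)) / (qE d : ℝ))) =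
      w * (t : ℂ) ^ 2 *
        ∑' n : ℕ, (cE d n : ℂ) * cexp (-(2 * Real.pi * n * (t : ℂ) / (qE d : ℝ))) := by
  set m : ℕ := d.natAbs with hm
  have hmsq : Squarefree m := Int.squarefree_natAbs.2 hd
  have hmodd : Odd m := by
    rw [Nat.odd_iff]
    omega
  have hm0 : 0 < m := hmodd.pos
  have : NeZero m := ⟨hm0.ne'⟩
  obtain ⟨hψ2, hψ⟩ := Pool.Agent.Y496.QT10a.jchi_sq m hmodd hmsq
  have hinv : (jchi m)⁻¹ = jchi m := by
    rw [inv_eq_iff_mul_eq_one, ← sq]
    exact hψ2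
  obtain ⟨w, hw, hfe⟩ := Pool.Agent.H304R2.EC.theta_fe m hmodd (jchi m) hψ
  rw [hinv] at hfe
  have hmR : (0 : ℝ) < m := by exact_mod_cast hm0
  have habs : |(d : ℝ)| = m := by
    rw [hm, Nat.cast_natAbs]
    push_cast
    rfl
  have hqE : qE d = 2 * (Real.sqrt 8 * m) := by
    unfold qE
    rw [if_neg h2, habs]
    ring
  have h8 : 0 < Real.sqrt 8 := Real.sqrt_pos.2 (by norm_num)
  have hs8 : 0 < Real.sqrt 8 * m := by positivity
  have hterm : ∀ t : ℝ, TH m (jchi m) (t / (Real.sqrt 8 * m)) =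
      ∑' n : ℕ, (cE d n : ℂ) * cexp (-(2 * Real.pi * n * (t : ℂ) / (qE d : ℝ))) := by
    intro t
    unfold Pool.Agent.H304R2.EC.TH
    refine tsum_congr fun n => ?_
    have e1 : (jchi m (n : ZMod m)) * (an n : ℂ) = (cE d n : ℂ) := by
      by_cases hn : n % 4 = 1
      · rw [Pool.Agent.Y496.QT10a.jchi_natCast]
        unfold cE
        rw [js_natAbs d hn, ← hm, js_recip hmodd hn]
        unfold js
        push_cast
        ring
      · unfold cE
        rw [an_mod4 hn]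
        simp
    rw [e1, Complex.ofReal_exp]
    congr 2
    rw [hqE]
    have hsc : ((Real.sqrt 8 * m : ℝ) : ℂ) ≠ 0 := by exact_mod_cast hs8.ne'
    push_cast at hsc ⊢
    field_simp
  refine ⟨w, hw, fun t ht => ?_⟩
  have h1 := hfe t ht
  rw [hterm t] at h1
  have e2 : 1 / (Real.sqrt 8 * m * t) = (1 / t) / (Real.sqrt 8 * m) := by
    field_simp
  rw [e2, hterm (1 / t)] at h1
  have e3 : (((1 / t : ℝ)) : ℂ) = 1 / (t : ℂ) := by push_cast; rfl
  rw [e3] at h1
  exact h1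

theorem fe_even (d : ℤ) (hd : Squarefree d) (h2 : d % 2 = 0) :
    ∃ w : ℂ, ‖w‖ = 1 ∧ ∀ t : ℝ, 0 < t →
      ∑' n : ℕ, (cE d n : ℂ) * cexp (-(2 * Real.pi * n * (1 / (t : ℂ)) / (qE d : ℝ))) =
      w * (t : ℂ) ^ 2 *
        ∑' n : ℕ, (cE d n : ℂ) * cexp (-(2 * Real.pi * n * (t : ℂ) / (qE d : ℝ))) := by
  set k : ℕ := d.natAbs with hk
  have hksq : Squarefree k := Int.squarefree_natAbs.2 hd
  obtain ⟨m, hm⟩ : ∃ m : ℕ, k = 2 * m := ⟨k / 2, by omega⟩
  have hmsq : Squarefree m := hksq.squarefree_of_dvd (hm ▸ dvd_mul_left m 2)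
  have hmodd : Odd m := by
    rw [← Nat.not_even_iff_odd]
    rintro ⟨l, hl⟩
    have h4 : 2 * 2 ∣ k := ⟨l, by rw [hm, hl]; ring⟩
    have := hksq 2 h4
    simp at this
  have hm0 : 0 < m := hmodd.pos
  have : NeZero m := ⟨hm0.ne'⟩
  obtain ⟨hψ2, hψ⟩ := Pool.Agent.Y496.QT10a.jchi_sq m hmodd hmsq
  have hinv : (jchi m)⁻¹ = jchi m := by
    rw [inv_eq_iff_mul_eq_one, ← sq]
    exact hψ2
  obtain ⟨w, hw, hfe⟩ := TE_fe m hmodd (jchi m) hψ
  rw [hinv] at hfe
  have hmR : (0 : ℝ) < m := by exact_mod_cast hm0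
  have habs : |(d : ℝ)| = 2 * m := by
    have h1 : ((k : ℕ) : ℝ) = |(d : ℝ)| := by
      rw [hk, Nat.cast_natAbs]
      push_cast
      rfl
    rw [← h1, hm]
    push_cast
    rfl
  have hqE : qE d = 2 * (4 * m) := by
    unfold qE
    rw [if_pos h2, habs]
    ring
  have hterm : ∀ t : ℝ, TE m (jchi m) (t / (4 * m)) =
      ∑' n : ℕ, (cE d n : ℂ) * cexp (-(2 * Real.pi * n * (t : ℂ) / (qE d : ℝ))) := by
    intro t
    unfold TE
    refine tsum_congr fun n => ?_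
    have e1 : (an n : ℂ) * (j2 n * (jchi m (n : ZMod m))) = (cE d n : ℂ) := by
      by_cases hn : n % 4 = 1
      · have hodd : Odd n := Nat.odd_iff.2 (by omega)
        rw [Pool.Agent.Y496.QT10a.jchi_natCast]
        unfold cE j2
        rw [js_natAbs d hn, ← hk, hm]
        have e2 : ((2 * m : ℕ) : ℤ) = 2 * (m : ℤ) := by push_cast; rfl
        rw [e2, js_mul_left, js_recip hmodd hn, js_two hodd]
        unfold js
        push_cast
        ring
      · unfold cE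
        rw [an_mod4 hn]
        simp
    rw [← e1, Complex.ofReal_exp]
    have e4 : (((-Real.pi * n * (t / (4 * m)) : ℝ)) : ℂ) =
        -(2 * Real.pi * n * (t : ℂ) / (qE d : ℝ)) := by
      rw [hqE]
      have hsc : ((4 * m : ℝ) : ℂ) ≠ 0 := by
        have : (4 * m : ℝ) ≠ 0 := by positivity
        exact_mod_cast this
      push_cast at hsc ⊢
      field_simp
    rw [e4]
    ring
  refine ⟨w, hw, fun t ht => ?_⟩
  have h1 := hfe t ht
  rw [hterm t] at h1
  have e2 : 1 / (4 * m * t) = (1 / t) / (4 * m) := by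
    field_simp
  rw [e2, hterm (1 / t)] at h1
  have e3 : (((1 / t : ℝ)) : ℂ) = 1 / (t : ℂ) := by push_cast; rfl
  rw [e3] at h1
  exact h1

theorem qE_pos (d : ℤ) (hd : Squarefree d) : 0 < qE d := by
  have hd0 : (d : ℝ) ≠ 0 := by exact_mod_cast hd.ne_zero
  have h1 : 0 < |(d : ℝ)| := abs_pos.2 hd0
  unfold qE
  split_ifs <;> positivity

theorem fe_real (d : ℤ) (hd : Squarefree d) :
    ∃ w : ℝ, w ^ 2 = 1 ∧ ∀ t : ℝ, 0 < t →
      ∑' n : ℕ, (cE d n : ℂ) * cexp (-(2 * Real.pi * n * (1 / (t : ℂ)) / (qE d : ℝ))) =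
      (w : ℂ) * (t : ℂ) ^ 2 *
        ∑' n : ℕ, (cE d n : ℂ) * cexp (-(2 * Real.pi * n * (t : ℂ) / (qE d : ℝ))) := by
  obtain ⟨w, hw, hfe⟩ : ∃ w : ℂ, ‖w‖ = 1 ∧ ∀ t : ℝ, 0 < t →
      ∑' n : ℕ, (cE d n : ℂ) * cexp (-(2 * Real.pi * n * (1 / (t : ℂ)) / (qE d : ℝ))) =
      w * (t : ℂ) ^ 2 *
        ∑' n : ℕ, (cE d n : ℂ) * cexp (-(2 * Real.pi * n * (t : ℂ) / (qE d : ℝ))) := by
    by_cases h2 : d % 2 = 0
    · exact fe_even d hd h2
    · exact fe_odd d hd h2
  obtain ⟨w', hw', e⟩ := w_sq (cE_le d) (wt d).zero (wt d).one (qE_pos d hd) w hfe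
  refine ⟨w', hw', fun t ht => ?_⟩
  rw [e]
  exact hfe t ht

/-! ### points -/

theorem ap_eq (p : ℕ) (hp : p.Prime) (h2 : p ≠ 2) : ap (-1) 0 p = an p := by
  have : Fact p.Prime := ⟨hp⟩
  rw [← Pool.Agent.H304R2.EC.aE_eq p hp h2, Pool.Agent.H304R2.EC.Pts.aE_eq_SS h2]
  unfold ap
  rw [Pool.Agent.Y691.QT.card_eq p h2]
  unfold Pool.Agent.H304R2.EC.Pts.SS
  have : ∀ x : ZMod p, x ^ 3 + ((-1 : ℤ) : ZMod p) * x + ((0 : ℤ) : ZMod p) = x * (x ^ 2 - 1) := by
    intro x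
    push_cast
    ring
  simp_rw [this]
  ring

theorem ap_tw (d : ℤ) (p : ℕ) (hp : p.Prime) (h2 : p ≠ 2) (hd : ¬ (p : ℤ) ∣ d) :
    (ap (-1 * d ^ 2) (0 * d ^ 3) p : ℝ) = cE d p := by
  rw [Pool.Agent.Y691.QT.ap_twist (-1) 0 d p hp h2 hd, ap_eq p hp h2]
  unfold cE js
  push_cast
  ring

/-- N1: the congruent number curves `y² = x³ - d² x`, without modular forms -/
theorem N1 : HasTwists (-1) 0 ∧
    ∀ d : ℤ, Squarefree d → ∃ F : ℂ → ℂ, IsLFun (-1 * d ^ 2) (0 * d ^ 3) F := by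
  have hs8 : Real.sqrt 8 ≤ 3 := by
    rw [Real.sqrt_le_left (by norm_num)]
    norm_num
  have hs8' : 1 ≤ Real.sqrt 8 := by
    rw [Real.one_le_sqrt]
    norm_num
  choose! w hw hfe using fe_real
  constructor
  · refine hasTwists_of (-1) 0 30030 (by norm_num) ?_ ?_ eE cE (fun d _ => wt d) ?_ ?_ qE w 6
      (by norm_num) ?_ ?_ hw ?_
    · intro p hp h16
      interval_cases p <;> first | (norm_num; done) | (exact absurd hp (by norm_num))
    · intro p hp h
      have h1 : (p : ℤ) ∣ 2 ^ 3 := by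
        have : (2 * (4 * (-1) ^ 3 + 27 * 0 ^ 2) : ℤ) = -(2 ^ 3) := by norm_num
        rw [this, dvd_neg] at h
        exact h
      have h2 : p ∣ 2 ^ 3 := by exact_mod_cast h1
      have h3 : p ∣ 2 := hp.dvd_of_dvd_pow h2
      exact h3.trans (by norm_num)
    · intro d _ p hp hpQ
      have h2 : p ≠ 2 := by
        rintro rfl
        exact hpQ (by norm_num)
      refine ⟨by unfold eE; rw [if_neg h2], ?_⟩
      unfold cE
      rw [js_one_left]
      ring
    · intro p hp hpQ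
      have h2 : p ≠ 2 := by
        rintro rfl
        exact hpQ (by norm_num)
      unfold cE
      rw [js_one_left, ap_eq p hp h2, mul_one]
    · intro d _
      have h0 := abs_nonneg (d : ℝ)
      unfold qE
      split_ifs
      · nlinarith
      · nlinarith
    · intro d _
      have h0 := abs_nonneg (d : ℝ)
      unfold qE
      split_ifs
      · nlinarith
      · nlinarith
    · intro d hd z hz
      exact fe_ext (cE_le d) (qE_pos d hd) _ (hfe d hd) z hz
  · intro d hd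
    have hd0 : d ≠ 0 := hd.ne_zero
    have hD : 2 * (4 * (-1 * d ^ 2) ^ 3 + 27 * (0 * d ^ 3) ^ 2) = -(2 ^ 3 * d ^ 6) := by ring
    refine lfun_of (-1 * d ^ 2) (0 * d ^ 3) ?_ (wt d) (by norm_num) (cE_le d) (qE_pos d hd)
      (w d : ℂ) ?_ (hfe d hd) ?_
    · intro h
      have h1 : -(2 ^ 3 * d ^ 6) = 0 := by rw [← hD, h]; rfl
      have h2 : d ^ 6 = 0 := by linarith
      exact hd0 (pow_eq_zero_iff (by norm_num) |>.1 h2)
    · intro h
      have h1 := hw d hd
      have h2 : w d = 0 := by exact_mod_cast h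
      rw [h2] at h1
      norm_num at h1
    · intro p hp hpn
      rw [hD, dvd_neg] at hpn
      have h2 : p ≠ 2 := by
        rintro rfl
        exact hpn (dvd_mul_of_dvd_left (dvd_pow_self 2 (by norm_num)) _)
      have hpd : ¬ (p : ℤ) ∣ d := fun h =>
        hpn (dvd_mul_of_dvd_right (dvd_pow h (by norm_num)) _)
      refine ⟨?_, (ap_tw d p hp h2 hpd).symm⟩
      unfold eE
      rw [if_neg h2]
      apply Pool.Agent.Y691.QT.js_sq
      have h3 : ¬ p ∣ d.natAbs := fun h => hpd (Int.natCast_dvd.2 h)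
      exact ((Nat.Prime.coprime_iff_not_dvd hp).2 h3).symm

end Pool.Agent.Y153.QTN1
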