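import Pool.Agent.Y153.QN3.Gauss
import Pool.Agent.Y153.QN3.Neg
import Pool.Agent.Y153.QN3.Two
import Pool.Agent.Y153.QN3.Pt
import Pool.Agent.Y692.QN.Iface

/-! Project QT, task N3: the arithmetic of `y² = x³ + A x`. -/

set_option autoImplicit false

namespace Pool.Agent.Y153.QN3

open Pool.Agent.Y19.QT Pool.Agent.Y692.QN

theorem exists_prim_char {F : Type} [Field F] [IsAlgClosed F] {p : ℕ} [hp : Fact p.Prime]
    (h : (p : F) ≠ 0) : ∃ ψ : AddChar (ZMod p) F, ψ.IsPrimitive := by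
  have : NeZero (p : F) := ⟨h⟩
  obtain ⟨ζ, hζ⟩ := HasEnoughRootsOfUnity.exists_primitiveRoot F p
  exact ⟨_, AddChar.zmodChar_primitive_of_primitive_root p hζ⟩

section
variable {q : ℕ} [hq : Fact q.Prime] {F : Type} [Field F] [CharP F q] (r : GaussianInt →+* F)

theorem r_congr {α β : GaussianInt} (h : (q : GaussianInt) ∣ α - β) : r α = r β := by
  obtain ⟨c, hc⟩ := h
  have h1 : r (α - β) = 0 := by
    rw [hc, map_mul, map_natCast, CharP.cast_eq_zero, zero_mul]
  rw [map_sub] at h1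
  exact sub_eq_zero.1 h1

theorem star_congr {α β : GaussianInt} (h : (q : GaussianInt) ∣ α - β) :
    (q : GaussianInt) ∣ star α - star β := by
  obtain ⟨c, hc⟩ := h
  refine ⟨star c, ?_⟩
  rw [← star_sub, hc, star_mul', star_natCast]

theorem norm_int (n : ℤ) : ((n : GaussianInt)).norm = n * n := Zsqrtd.norm_intCast n

theorem not_dvd_norm {n : ℤ} (h : ¬ (q : ℤ) ∣ n) : ¬ (q : ℤ) ∣ ((n : GaussianInt)).norm := by
  rw [norm_int]
  intro h1
  rcases (Nat.prime_iff_prime_int.1 hq.out).dvd_or_dvd h1 with h2 | h2 <;> exact h h2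

end

theorem Sym_q1 {q : ℕ} [hq : Fact q.Prime] (hq4 : q % 4 = 1) :
    ∃ ε, Sym (q : ℤ) (4 * q) ε := by
  have hq2 : q ≠ 2 := by omega
  let F := AlgebraicClosure (ZMod q)
  have : CharP F q := inferInstance
  obtain ⟨s, hs⟩ := IsAlgClosed.exists_pow_nat_eq (-1 : F) (n := 2) (by norm_num)
  let r : GaussianInt →+* F := Zsqrtd.lift ⟨s, by rw [← pow_two, hs]; simp⟩
  obtain ⟨j, hj⟩ : ∃ j, q = 4 * j + 1 := ⟨q / 4, by omega⟩
  have hj' : (q - 1) / 4 = j := by omega
  have hpow : ∀ α : GaussianInt, ¬ (q : ℤ) ∣ α.norm → r α ^ (4 * j) = 1 ∧ r (star α) ^ (4 * j) = 1 := by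
    intro α h
    constructor
    · apply mul_right_cancel₀ (r_ne r h)
      rw [one_mul, ← pow_succ, ← hj, frob1 r hq4]
    · apply mul_right_cancel₀ (r_star_ne r h)
      rw [one_mul, ← pow_succ, ← hj, frob1 r hq4]
  refine Sym_of hq.out hq2 (two_ne_F hq2) r
    (fun α => r α ^ ((q - 1) / 4) * r (star α) ^ (3 * ((q - 1) / 4))) q (dvd_refl _) ?_ ?_ ?_ ?_ ?_ ?_ ?_
  · intro α β
    simp only [map_mul, star_mul', mul_pow]
    ring
  · simp
  · intro α h
    obtain ⟨h1, h2⟩ := hpow α h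
    simp only [hj']
    calc (r α ^ j * r (star α) ^ (3 * j)) ^ 4 = r α ^ (4 * j) * (r (star α) ^ (4 * j)) ^ 3 := by ring
      _ = 1 := by rw [h1, h2]; ring
  · intro α h
    obtain ⟨h1, h2⟩ := hpow α h
    simp only [hj', star_star]
    calc r (star α) ^ j * r α ^ (3 * j) = r (star α) ^ j * r α ^ (3 * j) * 1 ^ 2 := by ring
      _ = r (star α) ^ j * r α ^ (3 * j) * (r (star α) ^ (4 * j)) ^ 2 := by rw [h2]
      _ = _ := by ring
  · intro n h
    obtain ⟨h1, -⟩ := hpow (n : GaussianInt) (not_dvd_norm h)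
    simp only [hj', star_intCast]
    rw [← pow_add, ← h1]
    congr 1
    omega
  · intro α β h
    rw [r_congr r h, r_congr r (star_congr h)]
  · intro p hp hp4 α φ hφ hn hpq
    have hp0 : (p : F) ≠ 0 := by
      rw [Ne, CharP.cast_eq_zero_iff F q]
      intro h
      exact hpq ((Nat.prime_dvd_prime_iff_eq hq.out hp.out).1 h).symm
    obtain ⟨ψ, hψ⟩ := exists_prim_char (F := F) hp0
    have := rec1 r φ hp4 hψ hq4 hpq hφ hn
    rw [← this]
    unfold X
    rw [MulChar.ringHomComp_apply]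
    simp

theorem Sym_q3 {q : ℕ} [hq : Fact q.Prime] (hq4 : q % 4 = 3) :
    ∃ ε, Sym (-(q : ℤ)) (4 * q) ε := by
  have hq2 : q ≠ 2 := by omega
  let F := AlgebraicClosure (ZMod q)
  have : CharP F q := inferInstance
  obtain ⟨s, hs⟩ := IsAlgClosed.exists_pow_nat_eq (-1 : F) (n := 2) (by norm_num)
  let r : GaussianInt →+* F := Zsqrtd.lift ⟨s, by rw [← pow_two, hs]; simp⟩
  obtain ⟨j, hj⟩ : ∃ j, q = 4 * j + 3 := ⟨q / 4, by omega⟩
  have hj' : (q ^ 2 - 1) / 4 = (4 * j + 2) * (j + 1) := by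
    rw [hj]
    have : (4 * j + 3) ^ 2 - 1 = 4 * ((4 * j + 2) * (j + 1)) := by
      rw [Nat.sub_eq_iff_eq_add (Nat.one_le_pow _ _ (by omega))]; ring
    rw [this]; omega
  have hpow : ∀ α : GaussianInt, ¬ (q : ℤ) ∣ α.norm → (r α ^ ((q ^ 2 - 1) / 4)) ^ 4 = 1 := by
    intro α h
    apply mul_right_cancel₀ (r_ne r h)
    have h1 : (r α ^ q) ^ q = r α := by rw [frob3 r hq4, frob3 r hq4, star_star]
    rw [one_mul, ← pow_mul, ← pow_succ]
    rw [← pow_mul] at h1
    calc r α ^ ((q ^ 2 - 1) / 4 * 4 + 1) = r α ^ (q * q) := by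
          congr 1
          rw [hj', hj]; ring
      _ = _ := h1
  refine Sym_of hq.out hq2 (two_ne_F hq2) r
    (fun α => r α ^ ((q ^ 2 - 1) / 4)) (-(q : ℤ)) ((dvd_neg).2 (dvd_refl _)) ?_ ?_ ?_ ?_ ?_ ?_ ?_
  · intro α β
    simp only [map_mul, mul_pow]
  · simp
  · intro α h
    exact hpow α h
  · intro α h
    have h1 := hpow α h
    rw [← frob3 r hq4, ← pow_mul, mul_comm q, pow_mul]
    set T := r α ^ ((q ^ 2 - 1) / 4)
    have e : T ^ q = (T ^ 4) ^ j * T ^ 3 := by
      have e1 : (T ^ 4) ^ j * T ^ 3 = T ^ (4 * j + 3) := by ring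
      rw [e1]
      congr 1
    rw [e, h1, one_pow, one_mul]
  · intro n h
    simp only [hj', map_intCast]
    have h0 : (n : F) ≠ 0 := by
      rwa [Ne, CharP.intCast_eq_zero_iff F q]
    have h1 : (n : F) ^ (4 * j + 2) = 1 := by
      apply mul_right_cancel₀ h0
      rw [one_mul, ← pow_succ]
      have h2 := int_pow (q := q) (F := F) n
      calc (n : F) ^ (4 * j + 2 + 1) = (n : F) ^ q := by
            congr 1
            omega
        _ = _ := h2
    rw [pow_mul, h1, one_pow]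
  · intro α β h
    rw [r_congr r h]
  · intro p hp hp4 α φ hφ hn hpq
    have hp0 : (p : F) ≠ 0 := by
      rw [Ne, CharP.cast_eq_zero_iff F q]
      intro h
      exact hpq ((Nat.prime_dvd_prime_iff_eq hq.out hp.out).1 h).symm
    obtain ⟨ψ, hψ⟩ := exists_prim_char (F := F) hp0
    have := rec3 r φ hp4 hψ hq4 hpq hφ hn
    rw [← this]
    unfold X
    rw [MulChar.ringHomComp_apply]
    simp

theorem Sym_prime {q : ℕ} (hq : q.Prime) : ∃ m ε, Sym (q : ℤ) m ε := by
  have : Fact q.Prime := ⟨hq⟩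
  rcases hq.eq_two_or_odd with h | h
  · rw [h]
    exact ⟨8, _, Sym_two⟩
  · have h4 : q % 4 = 1 ∨ q % 4 = 3 := by omega
    rcases h4 with h4 | h4
    · obtain ⟨ε, hε⟩ := Sym_q1 h4
      exact ⟨_, ε, hε⟩
    · obtain ⟨ε, hε⟩ := Sym_q3 h4
      have h5 := Sym_neg.prod hε
      rw [neg_one_mul, neg_neg] at h5
      exact ⟨_, _, h5⟩

theorem Sym_nat (n : ℕ) (hn : n ≠ 0) : ∃ m ε, Sym (n : ℤ) m ε := by
  induction n using Nat.recOnMul with
  | zero => exact absurd rfl hn
  | one => exact ⟨1, _, by exact_mod_cast Sym_one⟩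
  | prime p hp => exact Sym_prime hp
  | mul a b ha hb =>
    obtain ⟨m, ε, h⟩ := ha (left_ne_zero_of_mul hn)
    obtain ⟨m', ε', h'⟩ := hb (right_ne_zero_of_mul hn)
    refine ⟨m * m', fun α => ε α * ε' α, ?_⟩
    rw [Nat.cast_mul]
    exact h.prod h'

theorem Sym_int (n : ℤ) (hn : n ≠ 0) : ∃ m ε, Sym n m ε := by
  rcases Int.natAbs_eq n with h | h
  · rw [h]
    exact Sym_nat _ (Int.natAbs_ne_zero.2 hn)
  · obtain ⟨m, ε, h1⟩ := Sym_nat n.natAbs (Int.natAbs_ne_zero.2 hn)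
    have h2 := Sym_neg.prod h1
    rw [neg_one_mul, ← h] at h2
    exact ⟨_, _, h2⟩

theorem gz_eq (α : GaussianInt) : gz α = GaussianInt.toComplex α := by
  rw [GaussianInt.toComplex_def]
  rfl

theorem quartic_data (A : ℤ) (hA : A ≠ 0) : QuarticData A := by
  obtain ⟨m, ε, h⟩ := Sym_int (-A) (neg_ne_zero.2 hA)
  have hc4 : ∀ α : GaussianInt, IsCoprime α ((4 : ℕ) : GaussianInt) ↔ (α.re + α.im) % 2 = 1 := by
    intro α
    have := cop_two_pow α (k := 2) (by norm_num)
    rw [show (2 ^ 2 : ℕ) = 4 by norm_num] at this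
    exact this
  refine ⟨4 * m, fun α => gz (w α) * gz (star (ε α)), Nat.mul_pos (by norm_num) h.pos, ?_, ?_, ?_, ?_,
    ?_, ?_, ?_, ?_⟩
  · intro p hp hd
    rcases (hp.dvd_mul).1 hd with h1 | h1
    · have h2 : p ∣ 2 := by
        have : p ∣ 2 ^ 2 := by norm_num; exact h1
        exact hp.dvd_of_dvd_pow this
      have : (p : ℤ) ∣ 2 := by exact_mod_cast h2
      exact Dvd.dvd.mul_right this _
    · have h2 := h.bad p hp h1
      rw [mul_neg, dvd_neg] at h2
      exact h2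
  · intro α β
    simp only [gz_eq, w_mul, h.mul, star_mul', map_mul]
    ring
  · intro α β hd
    rw [Nat.cast_mul] at hd
    simp only
    rw [w_per (dvd_trans (Dvd.intro _ rfl) hd), h.per α β (dvd_trans (Dvd.intro_left _ rfl) hd)]
  · intro α
    simp only [gz_eq]
    rw [mul_eq_zero, GaussianInt.toComplex_eq_zero, GaussianInt.toComplex_eq_zero, star_eq_zero,
      w_zero, h.zero, cop_mul_right, hc4, not_and_or]
    have e : (α.re + α.im) % 2 = 0 ↔ ¬ (α.re + α.im) % 2 = 1 := by omega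
    rw [e]
  · intro u hu
    simp only [gz_eq]
    rw [h.unit u hu, star_one, map_one, mul_one, ← map_mul, w_unit hu, map_one]
  · intro α
    simp only [gz_eq]
    rw [w_star, h.star, map_mul, GaussianInt.toComplex_star, star_star, GaussianInt.toComplex_star,
      Complex.conj_conj]
  · intro p hp hp4 hd
    simp only [gz_eq]
    rw [w_three hp4, h.inert p hp hp4 (by rwa [mul_neg, dvd_neg])]
    simp
  · intro α p hp hd hn
    have hpf : Fact p.Prime := ⟨hp⟩
    have hp2 : p % 2 = 1 := by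
      rcases hp.eq_two_or_odd with h | h
      · exact absurd (by rw [h]; exact ⟨A, by push_cast; ring⟩) hd
      · exact h
    have hp4 := norm_mod4 hn hp2
    obtain ⟨φ, hφ⟩ := exists_red α hn
    have h1 := h.split α p hp (by rwa [mul_neg, dvd_neg]) hn
    rw [split_iff hp4 hφ (-A) (h.U α)] at h1
    have h2 := ap_eq hφ hn hp4 A (fun h => hd (Dvd.dvd.mul_left h _))
    have e : ((-A : ℤ) : ZMod p) = -(A : ZMod p) := by push_cast; rfl
    rw [e] at h1
    rw [h1] at h2
    have h3 := congrArg GaussianInt.toComplex h2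
    rw [map_intCast, map_add, GaussianInt.toComplex_star] at h3
    simp only [gz_eq]
    rw [h3]
    unfold prim
    rw [map_mul, map_mul]
    have e2 : GaussianInt.toComplex (star (ε α)) * (GaussianInt.toComplex (w α) *
      GaussianInt.toComplex α) = GaussianInt.toComplex (w α) * GaussianInt.toComplex (star (ε α)) *
      GaussianInt.toComplex α := by ring
    rw [e2]

end Pool.Agent.Y153.QN3
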